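import Pool.Agent.Y560.TG.Stm

/-!
Project TG: basic facts on one-ended structures.
-/

set_option autoImplicit false

namespace Pool.Agent.Y852.TG

open Set
open Pool.Agent.H566P (R2 lt ac co LA MB)
open Pool.Agent.Y560.TG

theorem PA_even (β : Ordinal.{0}) (Y : R2) (y k v : ℕ) : PA β Y y (2 * k) v ↔ Q Y y k v := by
  unfold PA
  rw [if_pos (by omega), show 2 * k / 2 = k by omega]

theorem PA_odd (β : Ordinal.{0}) (Y : R2) (y k v : ℕ) : PA β Y y (2 * k + 1) v ↔ Lr β Y y v := by
  unfold PA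
  rw [if_neg (by omega)]

theorem t_OEB (hS : S_SUB) (hN : S_NSM) (hG : S_GEO) : S_OEB := by
  intro Γ _ g hg Y β hMB hβ hE
  obtain ⟨G1, G2, G3, -, G5, -, -, G8, G9, -, -, -, G13⟩ := hG Γ g hg Y hMB
  obtain ⟨t, hLA, -⟩ := MB.la hMB
  -- linearity
  have lin : ∀ a b : ℕ, a ≠ b → (lt Y a b ↔ ¬ lt Y b a) := fun a b hab =>
    ⟨fun h => la_asymm hLA h, fun h => by
      by_contra h2
      exact hab (la_antisymm hLA h2 h)⟩
  have B : ∀ y z w, Bg β Y y w → (Bg β Y y z ↔ z ∈ Ob Y y w) := by
    intro y z w hw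
    refine ⟨fun hz => hE.un y w z hw hz, fun hz => ?_⟩
    have e := G2 _ _ _ hz
    refine ⟨fun ho => hw.1 ?_, ?_⟩
    · rw [← (G9 y w).1, ← e]
      exact (G9 y z).1.2 ho
    · rw [e]; exact hw.2
  have obeq : ∀ n y z z', ac Y n z z' → Ob Y y z' = Ob Y y z := fun n y z z' h =>
    G2 _ _ _ ((G3 n y z z z' h).1 (G1 y z))
  have orbeq : ∀ n y z z', ac Y n z z' → (orb Y y z ↔ orb Y y z') := by
    intro n y z z' h
    rw [← (G9 y z).1, ← (G9 y z').1, obeq n y z z' h]
  have C : ∀ n y z z', ac Y n z z' → (Bg β Y y z ↔ Bg β Y y z') := by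
    intro n y z z' h
    unfold Bg
    rw [orbeq n y z z' h, obeq n y z z' h]
  have D : ∀ y z w, ¬ Bg β Y y z → Bg β Y y w → sl Y y z w → (lt Y z w ↔ Lr β Y y z) := by
    intro y z w hz hw hs
    refine ⟨fun h => ⟨hz, w, hw, hs, h⟩, ?_⟩
    rintro ⟨-, w1, hw1, hs1, h1⟩
    have hz' : z ∉ Ob Y y w := fun h => hz ((B y z w hw).2 h)
    exact (G5 y w w (G1 y w) w1 ((B y w1 w hw).1 hw1) (sl_trans (sl_symm hs) hs1) z hz').2.2 h1
  refine ⟨?_, B, C, D, ?_⟩
  · intro y z w hw
    by_cases hz : Bg β Y y z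
    · exact Or.inl hz
    right
    have hz' : z ∉ Ob Y y w := fun h => hz ((B y z w hw).2 h)
    refine ⟨?_, fun hs => hw.2 ?_⟩
    · rintro ⟨n, hn⟩
      exact hz' ((G3 n y w z w hn).2 (G1 y w))
    · exact hS Γ g hg Y y w z univ β hMB hβ hw.1 hz' (subset_univ _)
        (((hN Y univ (Ob Y z w) z β hβ).1 (subset_univ _)).1 hs)
  · intro y
    have gorb : ∀ k, orb Y y (t (g k) y) := fun k => ⟨k, (la_ac hLA _ _ _).2 rfl⟩
    refine ⟨?_, ?_⟩
    · intro n x z h
      show (¬ Bg β Y y x ∧ ¬ orb Y y x) ↔ (¬ Bg β Y y z ∧ ¬ orb Y y z)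
      rw [C n y x z h, orbeq n y x z h]
    · intro v hv v' hv'
      have hv1 : ¬ Bg β Y y v := hv.1
      have hv2 : ¬ orb Y y v := hv.2
      have hv1' : ¬ Bg β Y y v' := hv'.1
      have hv2' : ¬ orb Y y v' := hv'.2
      constructor
      · intro h u hu
        have hs : sl Y y v v' := by
          intro m
          have := h (2 * m)
          rwa [PA_even, PA_even] at this
        have hL : Lr β Y y v ↔ Lr β Y y v' := by
          have := h (2 * 0 + 1)
          rwa [PA_odd, PA_odd] at this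
        have hu' : orb Y y u ∨ Bg β Y y u := by
          by_contra hc
          push Not at hc
          exact hu ⟨hc.2, hc.1⟩
        have huv : u ≠ v := by
          rintro rfl; exact hu hv
        have huv' : u ≠ v' := by
          rintro rfl; exact hu hv'
        -- it suffices to prove one of the two equivalences
        suffices hh : lt Y v u ↔ lt Y v' u by
          refine ⟨hh, ?_⟩
          rw [lin u v huv, lin u v' huv', hh]
        rcases hu' with ho | hb
        · obtain ⟨γ, rfl⟩ := (orb_iff hg hLA).1 ho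
          have h1 := ((sl_iff hg hLA).1 hs γ).1
          rw [lin v _ huv.symm, lin v' _ huv'.symm, h1]
        · by_cases hsu : sl Y y v u
          · rw [D y v u hv1 hb hsu, D y v' u hv1' hb (sl_trans (sl_symm hs) hsu), hL]
          · have hsu' : ¬ sl Y y v' u := fun h => hsu (sl_trans hs h)
            rw [G13 y v u hsu, G13 y v' u hsu']
            refine exists_congr fun k => ?_
            rw [hs (2 * k), hs (2 * k + 1)]
      · intro h
        have hs : sl Y y v v' := by
          intro m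
          obtain ⟨k, rfl | rfl⟩ : ∃ k, m = 2 * k ∨ m = 2 * k + 1 := ⟨m / 2, by omega⟩
          · rw [Q_even_iff hLA, Q_even_iff hLA]
            exact (h (t (g k) y) (fun hc => hc.2 (gorb k))).2
          · rw [Q_odd_iff hLA, Q_odd_iff hLA]
            constructor
            · intro e; exact absurd (e ▸ gorb k) hv2
            · intro e; exact absurd (e ▸ gorb k) hv2'
        have hL : Lr β Y y v ↔ Lr β Y y v' := by
          constructor
          · rintro ⟨-, w, hw, hsw, hlt⟩
            exact ⟨hv1', w, hw, sl_trans (sl_symm hs) hsw, (h w (fun hc => hc.1 hw)).1.1 hlt⟩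
          · rintro ⟨-, w, hw, hsw, hlt⟩
            exact ⟨hv1, w, hw, sl_trans hs hsw, (h w (fun hc => hc.1 hw)).1.2 hlt⟩
        intro k
        obtain ⟨j, rfl | rfl⟩ : ∃ j, k = 2 * j ∨ k = 2 * j + 1 := ⟨k / 2, by omega⟩
        · rw [PA_even, PA_even]; exact hs j
        · rw [PA_odd, PA_odd]; exact hL

end Pool.Agent.Y852.TG
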